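import Pool.Agent.Helper25_IGP.Rigid

/-!
# From finite normal subgroups of Galois groups to Galois groups
-/

set_option autoImplicit false

namespace Pool.Agent.Helper25IGP

universe u

theorem realize_of_normal {k L : Type u} [Field k] [Field L] [Algebra k L] [IsGalois k L]
    (K : IntermediateField k L) [IsGalois k K] {X G : Type} [Group X] [Finite X] [Group G]
    (hX : ∀ {Γ : Type u} [Group Γ] (N : Subgroup Γ) [N.Normal], Nonempty (X ≃* N) →
      ∃ f : Γ →* G, Function.Surjective f ∧ Subgroup.centralizer (N : Set Γ) ≤ f.ker)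
    (e : X ≃* Gal(L/K)) :
    ∃ M : IntermediateField k L, IsGalois k M ∧ Nonempty (G ≃* Gal(M/k)) := by
  have hN : K.fixingSubgroup.Normal := (InfiniteGalois.normal_iff_isGalois K).2 inferInstance
  let N : Subgroup Gal(L/k) := K.fixingSubgroup
  let e' : X ≃* N := e.trans (IntermediateField.fixingSubgroupEquiv K).symm
  have hfin : Finite N := Finite.of_equiv X e'.toEquiv
  obtain ⟨f, hf, hker⟩ := hX N ⟨e'⟩
  have hfi : (Subgroup.centralizer (N : Set Gal(L/k))).FiniteIndex := by
    have h1 : (MulAut.conjNormal (H := N)).ker.FiniteIndex := by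
      have : Finite (MulAut N) := Finite.of_injective (fun a : MulAut N => (a : N → N))
        (fun a b h => MulEquiv.ext (congrFun h))
      exact Subgroup.finiteIndex_ker _
    refine Subgroup.finiteIndex_of_le (H := (MulAut.conjNormal (H := N)).ker) ?_
    intro g hg
    rw [Subgroup.mem_centralizer_iff]
    intro n hn
    rw [MonoidHom.mem_ker] at hg
    have h2 := congrArg (fun a : MulAut N => ((a ⟨n, hn⟩ : N) : Gal(L/k))) hg
    simp only [MulAut.conjNormal_apply, MulAut.one_apply] at h2
    rw [mul_inv_eq_iff_eq_mul] at h2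
    exact h2.symm
  have hcl : IsClosed ((Subgroup.centralizer (N : Set Gal(L/k)) : Subgroup Gal(L/k)) :
      Set Gal(L/k)) := by
    exact Set.isClosed_centralizer (N : Set Gal(L/k))
  have hop : IsOpen ((Subgroup.centralizer (N : Set Gal(L/k)) : Subgroup Gal(L/k)) :
      Set Gal(L/k)) := Subgroup.isOpen_of_isClosed_of_finiteIndex _ hcl
  have hop' : IsOpen (f.ker : Set Gal(L/k)) := Subgroup.isOpen_mono hker hop
  let H : ClosedSubgroup Gal(L/k) := ⟨f.ker, Subgroup.isClosed_of_isOpen _ hop'⟩
  have hH : H.1.Normal := MonoidHom.normal_ker f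
  have hH' : H.Normal := hH
  refine ⟨IntermediateField.fixedField H.1, ?_, ⟨?_⟩⟩
  · rw [← InfiniteGalois.normal_iff_isGalois, InfiniteGalois.fixingSubgroup_fixedField]
    exact hH
  · exact (QuotientGroup.quotientKerEquivOfSurjective f hf).symm.trans
      (InfiniteGalois.normalAutEquivQuotient H)

end Pool.Agent.Helper25IGP
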