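import Pool.Agent.Helper25_IGP.Field

/-!
# The normal subgroup form of the inverse Galois problem
-/

set_option autoImplicit false

namespace Pool.Agent.Results.MP_dadaab_nt.NormalSubgroupForm

open Pool.Agent.Helper25IGP

universe u

/-- `G` is isomorphic to the group of a Galois extension of `k`. -/
def Realizable (k : Type u) [Field k] (G : Type) [Group G] : Prop :=
  ∃ (L : Type u) (_ : Field L) (_ : Algebra k L), IsGalois k L ∧ Nonempty (G ≃* Gal(L/k))

/-- `G` is isomorphic to `Gal(L/K)` for some `k ⊆ K ⊆ L` with `L/k` and `K/k` Galois. -/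
def NormallyRealizable (k : Type u) [Field k] (G : Type) [Group G] : Prop :=
  ∃ (L : Type u) (_ : Field L) (_ : Algebra k L) (K : IntermediateField k L),
    IsGalois k L ∧ IsGalois k K ∧ Nonempty (G ≃* Gal(L/K))

/-- Every Galois extension of a field with an intermediate field `K` Galois over the base and
`Gal(L/K)` isomorphic to `X` has an intermediate field Galois over the base with group `G`. -/
def Forces (X G : Type) [Group X] [Group G] : Prop :=
  ∀ (k L : Type u) [Field k] [Field L] [Algebra k L] [IsGalois k L] (K : IntermediateField k L)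
    [IsGalois k K], Nonempty (X ≃* Gal(L/K)) →
      ∃ M : IntermediateField k L, IsGalois k M ∧ Nonempty (G ≃* Gal(M/k))

/-- For every finite group `G` there is a finite group `X` such that every Galois extension `L/k`
with a Galois subextension `K/k` with `Gal(L/K)` isomorphic to `X` has a Galois subextension `M/k`
with `Gal(M/k)` isomorphic to `G`. Hence for every field `k`, every finite group is realizable over
`k` if and only if every finite group is isomorphic to `Gal(L/K)` for some `k ⊆ K ⊆ L` with `L/k`
and `K/k` Galois (possibly infinite). -/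
theorem result :
    (∀ (G : Type) [Group G] [Finite G], ∃ (X : Type) (_ : Group X) (_ : Finite X),
      Forces.{u} X G) ∧
    (∀ (k : Type u) [Field k], (∀ (G : Type) [Group G] [Finite G], Realizable k G) ↔
      (∀ (G : Type) [Group G] [Finite G], NormallyRealizable k G)) := by
  have main : ∀ (G : Type) [Group G] [Finite G], ∃ (X : Type) (_ : Group X) (_ : Finite X),
      Forces.{u} X G := by
    intro G _ _
    obtain ⟨X, _, _, hX⟩ := exists_quotient G
    refine ⟨X, inferInstance, inferInstance, ?_⟩
    rintro k L _ _ _ _ K _ ⟨e⟩
    exact realize_of_normal K hX e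
  refine ⟨main, ?_⟩
  intro k _
  constructor
  · intro h G _ _
    obtain ⟨L, _, _, hL, ⟨e⟩⟩ := h G
    refine ⟨L, inferInstance, inferInstance, ⊥, hL, inferInstance, ⟨?_⟩⟩
    refine e.trans ?_
    refine MulEquiv.trans ?_ (IntermediateField.fixingSubgroupEquiv (⊥ : IntermediateField k L))
    refine Subgroup.topEquiv.symm.trans (MulEquiv.subgroupCongr ?_)
    exact IntermediateField.fixingSubgroup_bot.symm
  · intro h G _ _
    obtain ⟨X, _, _, hX⟩ := main G
    obtain ⟨L, _, _, K, hL, hK, he⟩ := h X
    obtain ⟨M, hM, ⟨e'⟩⟩ := hX k L K he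
    exact ⟨M, inferInstance, inferInstance, hM, ⟨e'⟩⟩

end Pool.Agent.Results.MP_dadaab_nt.NormalSubgroupForm
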