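import Mathlib

/-!
# Rigid covers

For every finite group `G` there is a finite group `X` with a homomorphism
`MulAut X → G` that sends the inner automorphism given by `x` to the image of `x` under an
epimorphism `X → G`.
-/

set_option autoImplicit false

namespace Pool.Agent.Helper25IGP

variable {G : Type} [Group G]

/-- The data of the construction. -/
structure Data (G : Type) [Group G] where
  /-- the prime for the torus -/
  r : ℕ
  rp : r.Prime
  r5 : 5 ≤ r
  rG : Nat.Coprime r (Nat.card G)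
  /-- the primes for the modules -/
  P : Option G → ℕ
  Pp : ∀ s, (P s).Prime
  Pinj : Function.Injective P
  Pr : ∀ s, P s % r = 1
  PG : ∀ s, Nat.Coprime (P s) (Nat.card G)
  /-- injective characters -/
  E : ∀ s, ZMod r →+ Additive (ZMod (P s))ˣ
  Einj : ∀ s, Function.Injective (E s)

theorem exists_char (r p : ℕ) (hp : p.Prime) (hr : r.Prime) (h : p % r = 1) :
    ∃ E : ZMod r →+ Additive (ZMod p)ˣ, Function.Injective E := by
  have : Fact p.Prime := ⟨hp⟩
  have : Fact r.Prime := ⟨hr⟩
  have hcard : Nat.card (ZMod p)ˣ = p - 1 := by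
    rw [Nat.card_eq_fintype_card, ZMod.card_units_eq_totient, Nat.totient_prime hp]
  have hdvd : r ∣ Nat.card (ZMod p)ˣ := by
    rw [hcard]
    have h1 : p = r * (p / r) + 1 := by
      conv_lhs => rw [← Nat.div_add_mod p r]
      rw [h]
    exact ⟨p / r, by omega⟩
  obtain ⟨z, hz⟩ := exists_prime_orderOf_dvd_card' r hdvd
  let f : ℤ →+ Additive (ZMod p)ˣ := zmultiplesHom _ (Additive.ofMul z)
  have hf : f (r : ℤ) = 0 := by
    have : z ^ r = 1 := by rw [← hz]; exact pow_orderOf_eq_one z
    simp only [f, zmultiplesHom_apply]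
    rw [natCast_zsmul, ← ofMul_pow, this, ofMul_one]
  refine ⟨ZMod.lift r ⟨f, hf⟩, ?_⟩
  rw [injective_iff_map_eq_zero]
  intro a ha
  obtain ⟨n, rfl⟩ := ZMod.intCast_surjective a
  rw [ZMod.lift_coe] at ha
  simp only [f, zmultiplesHom_apply] at ha
  have h2 : z ^ n = 1 := by
    have := congrArg Additive.toMul ha
    simpa using this
  rw [← orderOf_dvd_iff_zpow_eq_one, hz] at h2
  exact (ZMod.intCast_zmod_eq_zero_iff_dvd n r).2 h2

theorem exists_data (G : Type) [Group G] [Finite G] : Nonempty (Data G) := by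
  classical
  have := Fintype.ofFinite G
  have hG : 0 < Nat.card G := Nat.card_pos
  obtain ⟨r, hr1, hr2⟩ := Nat.exists_infinite_primes (Nat.card G + 5)
  have hrG : Nat.Coprime r (Nat.card G) := by
    rw [Nat.Prime.coprime_iff_not_dvd hr2]
    intro h
    have := Nat.le_of_dvd hG h
    omega
  -- infinitely many primes congruent to one
  have hinf : ∀ n, ∃ p, n ≤ p ∧ p.Prime ∧ p % r = 1 := by
    intro n
    obtain ⟨p, hp1, hp2, hp3⟩ := Nat.exists_prime_gt_modEq_one (k := r) n hr2.ne_zero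
    refine ⟨p, hp2.le, hp1, ?_⟩
    rw [Nat.ModEq, Nat.mod_eq_of_lt (by omega : 1 < r)] at hp3
    exact hp3
  choose f hf1 hf2 hf3 using hinf
  let g : ℕ → ℕ := fun n => Nat.rec (f (Nat.card G + 1)) (fun _ x => f (x + 1)) n
  have hg0 : g 0 = f (Nat.card G + 1) := rfl
  have hgs : ∀ n, g (n + 1) = f (g n + 1) := fun n => rfl
  have hgm : StrictMono g := strictMono_nat_of_lt_succ fun n => by
    rw [hgs]; exact Nat.lt_of_succ_le (hf1 _)
  have hgp : ∀ n, (g n).Prime ∧ g n % r = 1 ∧ Nat.card G < g n := by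
    intro n
    cases n with
    | zero => rw [hg0]; exact ⟨hf2 _, hf3 _, Nat.lt_of_succ_le (hf1 _)⟩
    | succ n =>
      refine ⟨by rw [hgs]; exact hf2 _, by rw [hgs]; exact hf3 _, ?_⟩
      calc Nat.card G < g 0 := by rw [hg0]; exact Nat.lt_of_succ_le (hf1 _)
        _ < g (n + 1) := hgm (Nat.succ_pos n)
  let e : Option G ≃ Fin (Fintype.card (Option G)) := Fintype.equivFin _
  let P : Option G → ℕ := fun s => g (e s)
  have hE := fun s : Option G => exists_char r (P s) (hgp _).1 hr2 (hgp _).2.1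
  choose E hE using hE
  refine ⟨⟨r, hr2, by omega, hrG, P, fun s => (hgp _).1, ?_, fun s => (hgp _).2.1, ?_, E, hE⟩⟩
  · intro s s' h
    exact e.injective (Fin.ext (hgm.injective h))
  · intro s
    rw [Nat.Prime.coprime_iff_not_dvd (hgp _).1]
    intro h
    have := Nat.le_of_dvd hG h
    have := (hgp (e s)).2.2
    omega

namespace Data

variable (D : Data G)

/-- character values -/
def ep (s : Option G) (a : ZMod D.r) : ZMod (D.P s) :=
  ((Additive.toMul (D.E s a) : (ZMod (D.P s))ˣ) : ZMod (D.P s))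

theorem ep_add (s : Option G) (a b : ZMod D.r) : D.ep s (a + b) = D.ep s a * D.ep s b := by
  simp [ep]

theorem ep_zero (s : Option G) : D.ep s 0 = 1 := by simp [ep]

theorem ep_inj (s : Option G) : Function.Injective (D.ep s) := by
  intro a b h
  apply D.Einj s
  simp only [ep] at h
  exact Additive.toMul.injective (Units.ext h)

/-- torus -/
abbrev T := G → ZMod D.r
/-- module -/
abbrev V := (s : Option G) → G → ZMod (D.P s)

/-- weights -/
def ph (s : Option G) (g : G) (t : D.T) : ZMod D.r :=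
  match s with
  | none => t g
  | some s => t g + 2 * t (g * s)

theorem ph_add (s : Option G) (g : G) (t u : D.T) : D.ph s g (t + u) = D.ph s g t + D.ph s g u := by
  cases s <;> simp [ph]
  ring

theorem ph_zero (s : Option G) (g : G) : D.ph s g 0 = 0 := by
  cases s <;> simp [ph]

/-- shift on the torus -/
def sh (h : G) (t : D.T) : D.T := fun g => t (h⁻¹ * g)

theorem sh_add (h : G) (t u : D.T) : D.sh h (t + u) = D.sh h t + D.sh h u := rfl
theorem sh_mul (h h' : G) (t : D.T) : D.sh (h * h') t = D.sh h (D.sh h' t) := by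
  funext g; simp [sh, mul_assoc]
theorem sh_one (t : D.T) : D.sh 1 t = t := by funext g; simp [sh]

theorem ph_sh (s : Option G) (g h : G) (t : D.T) :
    D.ph s g (D.sh h t) = D.ph s (h⁻¹ * g) t := by
  cases s <;> simp [ph, sh, mul_assoc]

/-- the action on the module -/
def act (t : D.T) (h : G) (v : D.V) : D.V := fun s g => D.ep s (D.ph s g t) * v s (h⁻¹ * g)

theorem act_add (t : D.T) (h : G) (v w : D.V) : D.act t h (v + w) = D.act t h v + D.act t h w := by
  funext s g; simp [act, mul_add]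

theorem act_act (t u : D.T) (h k : G) (v : D.V) :
    D.act t h (D.act u k v) = D.act (t + D.sh h u) (h * k) v := by
  funext s g
  simp only [act]
  rw [ph_add, ep_add, ph_sh, mul_inv_rev, mul_assoc, mul_assoc]

theorem act_one (v : D.V) : D.act 0 1 v = v := by
  funext s g; simp [act, ph_zero, ep_zero]

/-- the group `X` -/
@[ext] structure X where
  /-- module part -/
  v : D.V
  /-- torus part -/
  t : D.T
  /-- group part -/
  h : G

instance : Mul D.X := ⟨fun a b => ⟨a.v + D.act a.t a.h b.v, a.t + D.sh a.h b.t, a.h * b.h⟩⟩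
instance : One D.X := ⟨⟨0, 0, 1⟩⟩
instance : Inv D.X := ⟨fun a => ⟨-(D.act (-(D.sh a.h⁻¹ a.t)) a.h⁻¹ a.v), -(D.sh a.h⁻¹ a.t), a.h⁻¹⟩⟩

theorem mul_v (a b : D.X) : (a * b).v = a.v + D.act a.t a.h b.v := rfl
theorem mul_t (a b : D.X) : (a * b).t = a.t + D.sh a.h b.t := rfl
theorem mul_h (a b : D.X) : (a * b).h = a.h * b.h := rfl
theorem one_v : (1 : D.X).v = 0 := rfl
theorem one_t : (1 : D.X).t = 0 := rfl
theorem one_h : (1 : D.X).h = 1 := rfl
theorem inv_v (a : D.X) : a⁻¹.v = -(D.act (-(D.sh a.h⁻¹ a.t)) a.h⁻¹ a.v) := rfl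
theorem inv_t (a : D.X) : a⁻¹.t = -(D.sh a.h⁻¹ a.t) := rfl
theorem inv_h (a : D.X) : a⁻¹.h = a.h⁻¹ := rfl

instance : Group D.X := Group.ofLeftAxioms
  (by
    intro a b c
    ext1
    · rw [mul_v, mul_v, mul_v, mul_v, mul_t, mul_h, act_add, act_act, add_assoc]
    · rw [mul_t, mul_t, mul_t, mul_t, mul_h, sh_add, sh_mul, add_assoc]
    · rw [mul_h, mul_h, mul_h, mul_h, mul_assoc])
  (by
    intro a
    ext1
    · rw [mul_v, one_v, one_t, one_h, act_one, zero_add]
    · rw [mul_t, one_t, one_h, sh_one, zero_add]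
    · rw [mul_h, one_h, one_mul])
  (by
    intro a
    ext1
    · rw [mul_v, inv_v, inv_t, inv_h, one_v, neg_add_cancel]
    · rw [mul_t, inv_t, inv_h, one_t, neg_add_cancel]
    · rw [mul_h, inv_h, one_h, inv_mul_cancel])

instance [Finite G] : Finite D.X := by
  have : NeZero D.r := ⟨D.rp.ne_zero⟩
  have : ∀ s, NeZero (D.P s) := fun s => ⟨(D.Pp s).ne_zero⟩
  have : ∀ s, Finite (ZMod (D.P s)) := fun s => inferInstance
  exact Finite.of_injective (fun x : D.X => (x.v, x.t, x.h)) (by
    intro a b h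
    simp only [Prod.mk.injEq] at h
    ext1
    · exact h.1
    · exact h.2.1
    · exact h.2.2)

/-- the projection to `G` -/
def q : D.X →* G where
  toFun x := x.h
  map_one' := rfl
  map_mul' _ _ := rfl

theorem q_surj : Function.Surjective D.q := fun h => ⟨⟨0, 0, h⟩, rfl⟩

/-- elements with trivial group part -/
theorem pow_th (x : D.X) (hx : x.h = 1) (n : ℕ) : (x ^ n).h = 1 ∧ (x ^ n).t = n • x.t := by
  induction n with
  | zero => exact ⟨rfl, by rw [pow_zero, one_t, zero_smul]⟩
  | succ n ih =>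
    rw [pow_succ, mul_h, mul_t, ih.1, ih.2, hx, sh_one, mul_one, succ_nsmul]
    exact ⟨rfl, rfl⟩

theorem pow_v (x : D.X) (hx : x.h = 1) (ht : x.t = 0) (n : ℕ) : (x ^ n).v = n • x.v := by
  induction n with
  | zero => rw [pow_zero, one_v, zero_smul]
  | succ n ih =>
    have h1 := D.pow_th x hx n
    rw [pow_succ, mul_v, ih, h1.1, h1.2, ht, smul_zero, act_one, succ_nsmul]

theorem h_eq_one [Finite G] {x : D.X} {n : ℕ} (hn : Nat.Coprime n (Nat.card G)) (hx : x ^ n = 1) :
    x.h = 1 := by
  have h1 : (D.q x) ^ n = 1 := by rw [← map_pow, hx, map_one]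
  have h2 : (D.q x) ^ (Nat.card G) = 1 := pow_card_eq_one'
  have h3 : orderOf (D.q x) ∣ Nat.gcd n (Nat.card G) :=
    Nat.dvd_gcd (orderOf_dvd_of_pow_eq_one h1) (orderOf_dvd_of_pow_eq_one h2)
  rw [hn, Nat.dvd_one, orderOf_eq_one_iff] at h3
  exact h3

theorem cast_P (s : Option G) : ((D.P s : ℕ) : ZMod D.r) = 1 := by
  have h1 : 1 < D.r := by have := D.r5; omega
  rw [← Nat.cast_one, ZMod.natCast_eq_natCast_iff, Nat.ModEq, D.Pr s, Nat.mod_eq_of_lt h1]

theorem t_eq_zero {x : D.X} {n : ℕ} (hn : (n : ZMod D.r) = 1) (hh : x.h = 1) (hx : x ^ n = 1) :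
    x.t = 0 := by
  have h1 := (D.pow_th x hh n).2
  rw [hx, one_t] at h1
  funext g
  have h2 := congrFun h1 g
  rw [Pi.smul_apply, nsmul_eq_mul, hn, one_mul] at h2
  exact h2.symm

/-- the product of the primes -/
noncomputable def N [Fintype G] : ℕ := ∏ s : Option G, D.P s

theorem N_coprime [Fintype G] : Nat.Coprime D.N (Nat.card G) :=
  Nat.Coprime.prod_left fun s _ => D.PG s

theorem N_cast [Fintype G] : (D.N : ZMod D.r) = 1 := by
  rw [N, Nat.cast_prod]
  exact Finset.prod_eq_one fun s _ => D.cast_P s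

theorem N_smul [Fintype G] (v : D.V) : D.N • v = 0 := by
  funext s g
  rw [Pi.smul_apply, Pi.smul_apply, nsmul_eq_mul]
  have : (D.N : ZMod (D.P s)) = 0 := by
    rw [ZMod.natCast_eq_zero_iff]
    exact Finset.dvd_prod_of_mem _ (Finset.mem_univ s)
  rw [this, zero_mul]
  rfl

/-- automorphisms preserve the module -/
theorem aut_v [Fintype G] (α : MulAut D.X) (x : D.X) (hh : x.h = 1) (ht : x.t = 0) :
    (α x).h = 1 ∧ (α x).t = 0 := by
  have h1 : x ^ D.N = 1 := by
    ext1
    · rw [D.pow_v x hh ht, N_smul, one_v]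
    · rw [(D.pow_th x hh _).2, ht, smul_zero, one_t]
    · rw [(D.pow_th x hh _).1, one_h]
  have h2 : (α x) ^ D.N = 1 := by rw [← map_pow, h1, map_one]
  have h3 := D.h_eq_one D.N_coprime h2
  exact ⟨h3, D.t_eq_zero D.N_cast h3 h2⟩

/-- automorphisms preserve the product of module and torus -/
theorem aut_h [Fintype G] (α : MulAut D.X) (x : D.X) (hh : x.h = 1) : (α x).h = 1 := by
  have h0 : (x ^ D.r).h = 1 ∧ (x ^ D.r).t = 0 := by
    refine ⟨(D.pow_th x hh _).1, ?_⟩
    rw [(D.pow_th x hh _).2]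
    funext g
    rw [Pi.smul_apply, nsmul_eq_mul, CharP.cast_eq_zero, zero_mul]
    rfl
  have h1 : x ^ (D.r * D.N) = 1 := by
    rw [pow_mul]
    ext1
    · rw [D.pow_v _ h0.1 h0.2, N_smul, one_v]
    · rw [(D.pow_th _ h0.1 _).2, h0.2, smul_zero, one_t]
    · rw [(D.pow_th _ h0.1 _).1, one_h]
  have h2 : (α x) ^ (D.r * D.N) = 1 := by rw [← map_pow, h1, map_one]
  exact D.h_eq_one (Nat.Coprime.mul_left D.rG D.N_coprime) h2

/-- automorphisms preserve the summands of the module -/
theorem aut_s [Fintype G] (α : MulAut D.X) (x : D.X) (s : Option G) (hh : x.h = 1) (ht : x.t = 0)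
    (hs : ∀ s' ≠ s, x.v s' = 0) : ∀ s' ≠ s, (α x).v s' = 0 := by
  have h1 : x ^ (D.P s) = 1 := by
    ext1
    · rw [D.pow_v x hh ht, one_v]
      funext s' g
      rw [Pi.smul_apply, Pi.smul_apply, nsmul_eq_mul]
      by_cases h : s' = s
      · subst h; rw [CharP.cast_eq_zero, zero_mul]; rfl
      · rw [hs s' h]; simp
    · rw [(D.pow_th x hh _).2, ht, smul_zero, one_t]
    · rw [(D.pow_th x hh _).1, one_h]
  have h2 : (α x) ^ (D.P s) = 1 := by rw [← map_pow, h1, map_one]
  obtain ⟨h3, h4⟩ := D.aut_v α x hh ht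
  have h5 := D.pow_v (α x) h3 h4 (D.P s)
  rw [h2, one_v] at h5
  intro s' hs'
  funext g
  have h6 := congrFun (congrFun h5 s') g
  rw [Pi.smul_apply, Pi.smul_apply, nsmul_eq_mul] at h6
  have : Fact (D.P s').Prime := ⟨D.Pp s'⟩
  rcases mul_eq_zero.1 h6.symm with h7 | h7
  · exfalso
    rw [ZMod.natCast_eq_zero_iff, Nat.prime_dvd_prime_iff_eq (D.Pp s') (D.Pp s)] at h7
    exact hs' (D.Pinj h7)
  · exact h7

open Classical in
/-- basis vectors -/
noncomputable def bv (s : Option G) (g : G) : D.X := ⟨Pi.single s (Pi.single g 1), 0, 1⟩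

/-- torus elements -/
def tor (t : D.T) : D.X := ⟨0, t, 1⟩

/-- the action of an automorphism on the torus -/
def tact (α : MulAut D.X) (t : D.T) : D.T := (α (D.tor t)).t

theorem tor_conj (t : D.T) (s : Option G) (g : G) :
    D.tor t * D.bv s g = (D.bv s g) ^ (D.ep s (D.ph s g t)).val * D.tor t := by
  classical
  have : Fact (D.P s).Prime := ⟨D.Pp s⟩
  have h1 := D.pow_th (D.bv s g) rfl (D.ep s (D.ph s g t)).val
  have h2 := D.pow_v (D.bv s g) rfl rfl (D.ep s (D.ph s g t)).val
  ext1
  · rw [mul_v, mul_v, h2, h1.1, h1.2]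
    show 0 + D.act t 1 (D.bv s g).v = _ + D.act (_ • 0) 1 0
    rw [smul_zero, act_one, add_zero, zero_add]
    funext s' g'
    simp only [act, inv_one, one_mul, bv, Pi.smul_apply, nsmul_eq_mul]
    by_cases hs : s' = s
    · subst hs
      rw [Pi.single_eq_same]
      by_cases hg : g' = g
      · subst hg
        rw [Pi.single_eq_same, mul_one, mul_one, ZMod.natCast_val, ZMod.cast_id]
      · rw [Pi.single_eq_of_ne hg, mul_zero, mul_zero]
    · rw [Pi.single_eq_of_ne hs]
      simp
  · rw [mul_t, mul_t, h1.1, h1.2]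
    show t + D.sh 1 0 = _ • 0 + D.sh 1 t
    rw [sh_one, sh_one, smul_zero, add_zero, zero_add]
  · rw [mul_h, mul_h, h1.1]
    rfl

/-- automorphisms permute the weights -/
theorem exists_weight [Fintype G] (α : MulAut D.X) (s : Option G) (g : G) :
    ∃ g', ∀ t, D.ph s g' (D.tact α t) = D.ph s g t := by
  classical
  have : Fact (D.P s).Prime := ⟨D.Pp s⟩
  obtain ⟨w1, w2⟩ := D.aut_v α (D.bv s g) rfl rfl
  have w3 := D.aut_s α (D.bv s g) s rfl rfl (fun s' hs' => by
    exact Pi.single_eq_of_ne hs' _)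
  have hne : ∃ g', (α (D.bv s g)).v s g' ≠ 0 := by
    by_contra hc
    push Not at hc
    have h1 : α (D.bv s g) = 1 := by
      ext1
      · funext s'
        by_cases hs : s' = s
        · subst hs; funext g'; exact hc g'
        · exact w3 s' hs
      · exact w2
      · exact w1
    have h2 : D.bv s g = 1 := by
      apply α.injective
      rw [h1, map_one]
    have h3 := congrFun (congrFun (congrArg X.v h2) s) g
    simp only [bv, Pi.single_eq_same] at h3
    exact one_ne_zero h3
  obtain ⟨g', hg'⟩ := hne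
  refine ⟨g', fun t => ?_⟩
  have h1 := congrArg α (D.tor_conj t s g)
  rw [map_mul, map_mul, map_pow] at h1
  have h2 := congrArg X.v h1
  have hp := D.pow_th (α (D.bv s g)) w1 (D.ep s (D.ph s g t)).val
  have hv := D.pow_v (α (D.bv s g)) w1 w2 (D.ep s (D.ph s g t)).val
  rw [mul_v, mul_v, hv, hp.1, hp.2, w2, smul_zero, act_one, D.aut_h α (D.tor t) rfl] at h2
  have h3 := congrFun (congrFun h2 s) g'
  rw [Pi.add_apply, Pi.add_apply, Pi.add_apply, Pi.add_apply, Pi.smul_apply, Pi.smul_apply,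
    nsmul_eq_mul, ZMod.natCast_val, ZMod.cast_id, add_comm] at h3
  have h4 := add_right_cancel h3
  simp only [act, inv_one, one_mul] at h4
  exact D.ep_inj s (mul_right_cancel₀ hg' h4)

theorem tact_mul [Fintype G] (α β : MulAut D.X) (t : D.T) :
    D.tact (α * β) t = D.tact α (D.tact β t) := by
  have h1 : β (D.tor t) = (⟨(β (D.tor t)).v, 0, 1⟩ : D.X) * D.tor (D.tact β t) := by
    ext1
    · rw [mul_v]
      show _ = (β (D.tor t)).v + D.act 0 1 0
      rw [act_one, add_zero]
    · rw [mul_t]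
      show _ = 0 + D.sh 1 (D.tact β t)
      rw [sh_one, zero_add]
      rfl
    · rw [mul_h]
      show _ = 1 * 1
      rw [D.aut_h β (D.tor t) rfl, one_mul]
  show (α (β (D.tor t))).t = _
  rw [h1, map_mul, mul_t]
  have h2 := D.aut_v α (⟨(β (D.tor t)).v, 0, 1⟩ : D.X) rfl rfl
  rw [h2.1, h2.2, sh_one, zero_add]
  rfl

theorem tact_one (t : D.T) : D.tact 1 t = t := rfl

theorem tact_surj [Fintype G] (α : MulAut D.X) : Function.Surjective (D.tact α) := by
  intro t
  refine ⟨D.tact α⁻¹ t, ?_⟩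
  rw [← tact_mul, mul_inv_cancel, tact_one]

/-- the permutation of the index set -/
noncomputable def pm [Fintype G] (α : MulAut D.X) (g : G) : G := (D.exists_weight α none g).choose

theorem pm_spec [Fintype G] (α : MulAut D.X) (g : G) (t : D.T) : D.tact α t (D.pm α g) = t g :=
  (D.exists_weight α none g).choose_spec t

theorem ne_aux {a : ℕ} (h : a < 5) (ha : a ≠ 0) : ((a : ℕ) : ZMod D.r) ≠ 0 := by
  intro h'
  rw [ZMod.natCast_eq_zero_iff] at h'
  have := Nat.le_of_dvd (Nat.pos_of_ne_zero ha) h'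
  have := D.r5
  omega

theorem point_inj [DecidableEq G] {x y : G} (h : ∀ t : D.T, t x = t y) : x = y := by
  by_contra hne
  have h1 := h (Pi.single x 1)
  rw [Pi.single_eq_same, Pi.single_eq_of_ne (Ne.symm hne)] at h1
  have := D.ne_aux (a := 1) (by norm_num) (by norm_num)
  rw [Nat.cast_one] at this
  exact this h1

theorem pm_unique [Fintype G] (α : MulAut D.X) (g x : G) (h : ∀ t, D.tact α t x = t g) :
    x = D.pm α g := by
  classical
  apply D.point_inj
  intro t
  obtain ⟨u, rfl⟩ := D.tact_surj α t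
  rw [h, pm_spec]

/-- the index permutation commutes with right multiplications -/
theorem pm_mul_right [Fintype G] (α : MulAut D.X) (g s : G) : D.pm α (g * s) = D.pm α g * s := by
  classical
  by_cases hs : s = 1
  · subst hs; simp
  obtain ⟨g', hg'⟩ := D.exists_weight α (some s) g
  have h1 : ∀ t : D.T, t g' + 2 * t (g' * s) = t (D.pm α g) + 2 * t (D.pm α (g * s)) := by
    intro t
    obtain ⟨u, rfl⟩ := D.tact_surj α t
    have := hg' u
    simp only [ph] at this
    rw [this, pm_spec, pm_spec]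
  have hne : g' ≠ g' * s := by
    intro h
    exact hs (by simpa using h.symm)
  have n1 := D.ne_aux (a := 1) (by norm_num) (by norm_num)
  have n2 := D.ne_aux (a := 2) (by norm_num) (by norm_num)
  have n3 := D.ne_aux (a := 3) (by norm_num) (by norm_num)
  push_cast at n1 n2 n3
  have e1 := h1 (Pi.single g' 1)
  have e2 := h1 (Pi.single (g' * s) 1)
  have hA : g' = D.pm α g := by
    by_contra hA
    rw [Pi.single_eq_same, Pi.single_eq_of_ne (Ne.symm hne), mul_zero, add_zero,
      Pi.single_eq_of_ne (Ne.symm hA), zero_add] at e1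
    by_cases hB : D.pm α (g * s) = g'
    · rw [hB, Pi.single_eq_same, mul_one] at e1
      apply n1
      have : (2 : ZMod D.r) - 1 = 1 := by norm_num
      rw [← this, ← e1, sub_self]
    · rw [Pi.single_eq_of_ne hB, mul_zero] at e1
      exact n1 e1
  rw [← hA]
  by_contra hB
  rw [Pi.single_eq_same, Pi.single_eq_of_ne hne, zero_add, mul_one, ← hA,
    Pi.single_eq_of_ne hne, zero_add, Pi.single_eq_of_ne hB, mul_zero] at e2
  exact n2 e2

/-- the homomorphism from the automorphism group to `G` -/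
noncomputable def rho [Fintype G] : MulAut D.X →* G where
  toFun α := D.pm α 1
  map_one' := (D.pm_unique 1 1 1 fun t => rfl).symm
  map_mul' α β := by
    have h1 : D.pm α (D.pm β 1) = D.pm (α * β) 1 := by
      apply D.pm_unique
      intro t
      rw [tact_mul, pm_spec, pm_spec]
    rw [← h1]
    conv_lhs => rw [← one_mul (D.pm β 1)]
    rw [pm_mul_right]

theorem rho_conj [Fintype G] (x : D.X) : D.rho (MulAut.conj x) = D.q x := by
  symm
  apply D.pm_unique
  intro t
  show (MulAut.conj x (D.tor t)).t (D.q x) = _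
  rw [MulAut.conj_apply, mul_t, mul_t, mul_h, inv_t]
  show (x.t + D.sh x.h t + D.sh (x.h * 1) (-(D.sh x.h⁻¹ x.t))) x.h = _
  rw [mul_one]
  simp only [Pi.add_apply, sh, Pi.neg_apply]
  simp

end Data

/-- Rigid covers. -/
theorem exists_rigid (G : Type) [Group G] [Finite G] : ∃ (X : Type) (_ : Group X) (_ : Finite X)
    (q : X →* G) (ρ : MulAut X →* G), Function.Surjective q ∧ ∀ x, ρ (MulAut.conj x) = q x := by
  have := Fintype.ofFinite G
  obtain ⟨D⟩ := exists_data G
  exact ⟨D.X, inferInstance, inferInstance, D.q, D.rho, D.q_surj, D.rho_conj⟩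

/-- Every group with a normal subgroup isomorphic to `X` maps onto `G`, and the kernel contains the
centraliser of this subgroup. -/
theorem exists_quotient (G : Type) [Group G] [Finite G] : ∃ (X : Type) (_ : Group X) (_ : Finite X),
    ∀ {Γ : Type*} [Group Γ] (N : Subgroup Γ) [N.Normal], Nonempty (X ≃* N) →
      ∃ f : Γ →* G, Function.Surjective f ∧ Subgroup.centralizer (N : Set Γ) ≤ f.ker := by
  obtain ⟨X, _, _, q, ρ, hq, hρ⟩ := exists_rigid G
  refine ⟨X, inferInstance, inferInstance, ?_⟩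
  rintro Γ _ N _ ⟨e⟩
  let F : Γ →* MulAut X := (MulAut.congr e.symm).toMonoidHom.comp MulAut.conjNormal
  have hF : ∀ x : X, F (e x : Γ) = MulAut.conj x := by
    intro x
    ext y
    simp only [F, MonoidHom.comp_apply]
    show e.symm (MulAut.conjNormal (e x : Γ) (e y)) = x * y * x⁻¹
    rw [MulEquiv.symm_apply_eq]
    ext
    simp [MulAut.conjNormal_apply]
  refine ⟨ρ.comp F, ?_, ?_⟩
  · intro g
    obtain ⟨x, rfl⟩ := hq g
    exact ⟨(e x : Γ), by rw [MonoidHom.comp_apply, hF, hρ]⟩
  · intro c hc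
    rw [MonoidHom.mem_ker, MonoidHom.comp_apply]
    have : F c = 1 := by
      ext y
      show e.symm (MulAut.conjNormal c (e y)) = y
      rw [MulEquiv.symm_apply_eq]
      ext
      rw [MulAut.conjNormal_apply]
      have := (Subgroup.mem_centralizer_iff.1 hc) (e y : Γ) (e y).2
      rw [← this, mul_inv_cancel_right]
    rw [this, map_one]

end Pool.Agent.Helper25IGP
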